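import Pool.Agent.helper88.RL.SpecW
import Pool.Agent.helper51.T6.WDL
import Pool.Agent.helper98.T6.WSM

set_option autoImplicit false

/-!
# Row rl:VSM (MP_16912e_nt): sums over moduli and frequencies
-/

namespace Pool.Agent.RL

open Finset Pool.Agent.helper3.FT Pool.Agent.T6 Pool.Agent.RF

open Classical in
/-- the sum over `(p, h)` as a sum over `(e, u, (δ, r))` -/
theorem VSM_comb (hVRK : VRK_stmt) (y₀ T : ℕ) (S : Finset OO) (g : ℕ × ℕ → ℝ) (hg : ∀ x, 0 ≤ g x) :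
    ∑ p ∈ S, ∑ h ∈ Ico 1 T,
      g (dl y₀ h (mk p), rk (dl y₀ h (mk p)) p) ≤
    ∑ e ∈ Ico 1 T, ∑ u ∈ range (Nat.log 2 (T / e) + 1), ∑ x ∈ PR y₀ u, g x *
      ((S.filter (fun p => rr y₀ e ∣ mk p ∧ Nat.Coprime x.1 (mk p) ∧ (x.1 : ℤ) ∣ p.im * x.2 - p.re)).card : ℝ) := by
  obtain ⟨hD1, -, -⟩ := WDL
  have key : ∀ p ∈ S, ∑ h ∈ Ico 1 T,
      g (dl y₀ h (mk p), rk (dl y₀ h (mk p)) p) ≤
      ∑ e ∈ Ico 1 T, ∑ u ∈ range (Nat.log 2 (T / e) + 1), ∑ x ∈ PR y₀ u,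
        (if rr y₀ e ∣ mk p ∧ Nat.Coprime x.1 (mk p) ∧
          (x.1 : ℤ) ∣ p.im * x.2 - p.re then g x else 0) := by
    intro p hp
    let S' : Finset (Σ _ : ℕ, Σ _ : ℕ, ℕ × ℕ) := (Ico 1 T).sigma fun e =>
      (range (Nat.log 2 (T / e) + 1)).sigma fun u => PR y₀ u
    let F : (Σ _ : ℕ, Σ _ : ℕ, ℕ × ℕ) → ℝ := fun z =>
      if rr y₀ z.1 ∣ mk p ∧ Nat.Coprime z.2.2.1 (mk p) ∧
          (z.2.2.1 : ℤ) ∣ p.im * z.2.2.2 - p.re then g z.2.2 else 0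
    let φ : ℕ → (Σ _ : ℕ, Σ _ : ℕ, ℕ × ℕ) := fun h =>
      ⟨h / dl y₀ h (mk p), Nat.log 2 (dl y₀ h (mk p)),
        (dl y₀ h (mk p), rk (dl y₀ h (mk p)) p)⟩
    have hS : ∑ z ∈ S', F z = ∑ e ∈ Ico 1 T, ∑ u ∈ range (Nat.log 2 (T / e) + 1), ∑ x ∈ PR y₀ u,
        (if rr y₀ e ∣ mk p ∧ Nat.Coprime x.1 (mk p) ∧
          (x.1 : ℤ) ∣ p.im * x.2 - p.re then g x else 0) := by
      simp only [S', F]
      rw [Finset.sum_sigma]
      refine Finset.sum_congr rfl fun e _ => ?_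
      rw [Finset.sum_sigma]
    rw [← hS]
    have hmem : ∀ h ∈ Ico 1 T, 1 ≤ dl y₀ h (mk p) ∧ dl y₀ h (mk p) ∣ h ∧
        Nat.Coprime (dl y₀ h (mk p)) (mk p) ∧ Rgh y₀ (dl y₀ h (mk p)) ∧
        rr y₀ (h / dl y₀ h (mk p)) ∣ mk p := by
      intro h hh
      rw [Finset.mem_Ico] at hh
      exact hD1 y₀ h (mk p) hh.1
    have hrt : ∀ h ∈ Ico 1 T,
        ((dl y₀ h (mk p) : ℕ) : ℤ) ∣ p.im * ((rk (dl y₀ h (mk p)) p : ℕ) : ℤ) - p.re ∧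
        rk (dl y₀ h (mk p)) p < dl y₀ h (mk p) ∧
        Cop (rk (dl y₀ h (mk p)) p) (dl y₀ h (mk p)) := by
      intro h hh
      obtain ⟨a1, _, a3, _, _⟩ := hmem h hh
      exact hVRK.1 (dl y₀ h (mk p)) p a1 a3
    have hinj : Set.InjOn φ (Ico 1 T : Finset ℕ) := by
      intro h hh h' hh' heq
      have e1 : h / dl y₀ h (mk p) = h' / dl y₀ h' (mk p) :=
        congrArg (fun z : (Σ _ : ℕ, Σ _ : ℕ, ℕ × ℕ) => z.1) heq
      have e2 : dl y₀ h (mk p) = dl y₀ h' (mk p) :=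
        congrArg (fun z : (Σ _ : ℕ, Σ _ : ℕ, ℕ × ℕ) => z.2.2.1) heq
      have a := (hmem h hh).2.1
      have a' := (hmem h' hh').2.1
      rw [← Nat.div_mul_cancel a, ← Nat.div_mul_cancel a', e1, e2]
    have hF : ∀ h ∈ Ico 1 T, g (dl y₀ h (mk p), rk (dl y₀ h (mk p)) p) =
        F (φ h) := by
      intro h hh
      obtain ⟨_, _, a3, _, a5⟩ := hmem h hh
      obtain ⟨b1, _, _⟩ := hrt h hh
      simp only [F, φ]
      rw [if_pos ⟨a5, a3, b1⟩]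
    rw [Finset.sum_congr rfl hF, ← Finset.sum_image (f := F) (g := φ) hinj]
    refine Finset.sum_le_sum_of_subset_of_nonneg ?_ ?_
    · intro z hz
      rw [Finset.mem_image] at hz
      obtain ⟨h, hh, rfl⟩ := hz
      obtain ⟨a1, a2, a3, a4, a5⟩ := hmem h hh
      obtain ⟨b1, b2, b3⟩ := hrt h hh
      rw [Finset.mem_Ico] at hh
      have c1 : 1 ≤ h / dl y₀ h (mk p) :=
        Nat.div_pos (Nat.le_of_dvd (by omega) a2) a1
      have c2 : h / dl y₀ h (mk p) ≤ h := Nat.div_le_self _ _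
      have c3 : dl y₀ h (mk p) ≤ T / (h / dl y₀ h (mk p)) := by
        rw [Nat.le_div_iff_mul_le c1, Nat.mul_div_cancel' a2]
        omega
      simp only [S', φ, Finset.mem_sigma, Finset.mem_Ico, Finset.mem_range]
      refine ⟨⟨c1, by omega⟩, Nat.lt_succ_of_le (Nat.log_mono_right c3), ?_⟩
      unfold PR
      rw [Finset.mem_filter, Finset.mem_product, Finset.mem_Ico, Finset.mem_range]
      have d1 : 2 ^ Nat.log 2 (dl y₀ h (mk p)) ≤ dl y₀ h (mk p) :=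
        Nat.pow_log_le_self 2 (by omega)
      have d2 : dl y₀ h (mk p) < 2 ^ (Nat.log 2 (dl y₀ h (mk p)) + 1) :=
        Nat.lt_pow_succ_log_self (by norm_num) _
      exact ⟨⟨⟨d1, d2⟩, lt_trans b2 d2⟩, b2, b3, a4⟩
    · intro z _ _
      simp only [F]
      split_ifs
      · exact hg _
      · exact le_rfl
  refine (Finset.sum_le_sum key).trans ?_
  rw [Finset.sum_comm]
  refine Finset.sum_le_sum fun e he => ?_
  rw [Finset.sum_comm]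
  refine Finset.sum_le_sum fun u _ => ?_
  rw [Finset.sum_comm]
  refine Finset.sum_le_sum fun x _ => ?_
  rw [← Finset.sum_filter, Finset.sum_const, nsmul_eq_mul, mul_comm]


theorem VSM_lamb (b : ℝ) (d r : ℕ) : 0 ≤ lamb b d r := by
  unfold lamb
  refine Real.sInf_nonneg ?_
  rintro x ⟨v, _, _, rfl⟩
  unfold nrm
  refine le_max_of_le_left (le_max_of_le_left ?_)
  positivity

open Classical in
/-- the sum over the pairs `(δ, r)` of one level -/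
theorem VSM_lev (hVMU : VMU_stmt) (y₀ : ℕ) (C₁ : ℝ) (u Q Y : ℕ) (S : Finset OO)
    (hQ : 1 ≤ Q) (hY : Squarefree Y) (hS : ∀ k ∈ S, KG Q k ∧ (Y : ℤ) ∣ k.norm * k.im)
    (hY5 : S.Nonempty → ¬ 5 ∣ Y) (hYm : ∀ k ∈ S, ∀ p : ℕ, p.Prime → p ∣ Y → p ∣ mk k)
    (hdiff : ∀ k ∈ S, ∀ k₁ ∈ S, k ∣ k₁ → k₁ ∣ k → k = k₁)
    (hH : ∑ p ∈ PR y₀ u, (√(2 ^ u) / lamb 1 p.1 p.2) ^ (3 / 2 : ℝ) ≤ C₁ * 4 ^ u) :
    ∑ x ∈ PR y₀ u, (1 / lamb 1 x.1 x.2) ^ (3 / 2 : ℝ) *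
      ((S.filter (fun k => Nat.Coprime x.1 (mk k) ∧ (x.1 : ℤ) ∣ k.im * x.2 - k.re)).card : ℝ) ≤
    3 ^ Y.primeFactors.card * C₁ * ((2 : ℝ) ^ ((5 / 4 : ℝ) * (u : ℝ)) +
      15 * Q / Y * (2 : ℝ) ^ ((1 / 4 : ℝ) * (u : ℝ))) := by
  have hY0 : 0 < Y := Nat.pos_of_ne_zero hY.ne_zero
  have hYr : (0 : ℝ) < Y := by exact_mod_cast hY0
  have h2u : (0 : ℝ) < 2 ^ u := by positivity
  have hM0 : (0 : ℝ) ≤ 3 ^ Y.primeFactors.card * (1 + 15 * Q / (2 ^ u * Y)) := by positivity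
  have h1 : ∀ x ∈ PR y₀ u, (1 / lamb 1 x.1 x.2) ^ (3 / 2 : ℝ) *
      ((S.filter (fun k => Nat.Coprime x.1 (mk k) ∧ (x.1 : ℤ) ∣ k.im * x.2 - k.re)).card : ℝ) ≤
      (3 ^ Y.primeFactors.card * (1 + 15 * Q / (2 ^ u * Y))) *
        ((2 : ℝ) ^ (-(3 / 4 : ℝ) * (u : ℝ)) * (√(2 ^ u) / lamb 1 x.1 x.2) ^ (3 / 2 : ℝ)) := by
    intro x hx
    rw [← WSM_pow u _ (VSM_lamb 1 x.1 x.2), mul_comm]
    have hg : 0 ≤ (1 / lamb 1 x.1 x.2) ^ (3 / 2 : ℝ) :=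
      Real.rpow_nonneg (div_nonneg zero_le_one (VSM_lamb 1 x.1 x.2)) _
    refine mul_le_mul_of_nonneg_right ?_ hg
    unfold PR at hx
    rw [Finset.mem_filter, Finset.mem_product, Finset.mem_Ico] at hx
    obtain ⟨⟨⟨hx1, _⟩, _⟩, _⟩ := hx
    have hx0 : 1 ≤ x.1 := le_trans Nat.one_le_two_pow hx1
    by_cases hc : Nat.Coprime x.1 Y ∧ S.Nonempty
    · refine (hVMU Q Y x.1 x.2 _ hQ hY (hY5 hc.2) hx0 hc.1 ?_ ?_).trans ?_
      · intro k hk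
        rw [Finset.mem_filter] at hk
        exact ⟨(hS k hk.1).1, (hS k hk.1).2, hk.2.2⟩
      · intro k hk k₁ hk₁
        rw [Finset.mem_filter] at hk hk₁
        exact hdiff k hk.1 k₁ hk₁.1
      refine mul_le_mul_of_nonneg_left ?_ (by positivity)
      have h3 : ((2 : ℝ) ^ u) * Y ≤ (x.1 : ℝ) * Y := by
        refine mul_le_mul_of_nonneg_right ?_ hYr.le
        exact_mod_cast hx1
      have h4 : (15 * Q : ℝ) / ((x.1 : ℝ) * Y) ≤ 15 * Q / (2 ^ u * Y) :=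
        div_le_div_of_nonneg_left (by positivity) (by positivity) h3
      linarith
    · have h5 : (S.filter (fun k => Nat.Coprime x.1 (mk k) ∧ (x.1 : ℤ) ∣ k.im * x.2 - k.re)) = ∅ := by
        rw [Finset.filter_eq_empty_iff]
        rintro k hk ⟨h6, _⟩
        apply hc
        refine ⟨?_, ⟨k, hk⟩⟩
        rw [Nat.coprime_iff_gcd_eq_one]
        by_contra h7
        obtain ⟨p, hp, hp2⟩ := Nat.exists_prime_and_dvd h7
        have h8 := hYm k hk p hp (hp2.trans (Nat.gcd_dvd_right _ _))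
        have h9 := Nat.dvd_gcd (hp2.trans (Nat.gcd_dvd_left _ _)) h8
        rw [h6] at h9
        exact hp.one_lt.ne' (Nat.dvd_one.1 h9)
      rw [h5, Finset.card_empty, Nat.cast_zero]
      exact hM0
  refine (Finset.sum_le_sum h1).trans ?_
  rw [← Finset.mul_sum, ← Finset.mul_sum]
  have h2 : (3 ^ Y.primeFactors.card * (1 + 15 * Q / (2 ^ u * Y))) *
      ((2 : ℝ) ^ (-(3 / 4 : ℝ) * (u : ℝ)) *
        ∑ x ∈ PR y₀ u, (√(2 ^ u) / lamb 1 x.1 x.2) ^ (3 / 2 : ℝ)) ≤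
      (3 ^ Y.primeFactors.card * (1 + 15 * Q / (2 ^ u * Y))) *
      ((2 : ℝ) ^ (-(3 / 4 : ℝ) * (u : ℝ)) * (C₁ * 4 ^ u)) :=
    mul_le_mul_of_nonneg_left (mul_le_mul_of_nonneg_left hH (by positivity)) hM0
  refine h2.trans (le_of_eq ?_)
  have e4 : (4 : ℝ) ^ u = (2 : ℝ) ^ (2 * (u : ℝ)) := by
    rw [Real.rpow_mul (by norm_num), Real.rpow_natCast]
    norm_num
  have e2 : (2 : ℝ) ^ u = (2 : ℝ) ^ (u : ℝ) := by rw [Real.rpow_natCast]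
  have a1 : (2 : ℝ) ^ (-(3 / 4 : ℝ) * (u : ℝ)) * (2 : ℝ) ^ (2 * (u : ℝ)) =
      (2 : ℝ) ^ ((5 / 4 : ℝ) * (u : ℝ)) := by
    rw [← Real.rpow_add (by norm_num)]
    congr 1
    ring
  have a2 : (2 : ℝ) ^ ((5 / 4 : ℝ) * (u : ℝ)) = (2 : ℝ) ^ ((1 / 4 : ℝ) * (u : ℝ)) * 2 ^ u := by
    rw [e2, ← Real.rpow_add (by norm_num)]
    congr 1
    ring
  have b1 : (1 + 15 * Q / (2 ^ u * Y) : ℝ) * (2 : ℝ) ^ ((5 / 4 : ℝ) * (u : ℝ)) =
      (2 : ℝ) ^ ((5 / 4 : ℝ) * (u : ℝ)) + 15 * Q / Y * (2 : ℝ) ^ ((1 / 4 : ℝ) * (u : ℝ)) := by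
    rw [add_mul, one_mul]
    congr 1
    rw [a2]
    field_simp
  calc (3 ^ Y.primeFactors.card * (1 + 15 * Q / (2 ^ u * Y))) *
      ((2 : ℝ) ^ (-(3 / 4 : ℝ) * (u : ℝ)) * (C₁ * 4 ^ u))
      = 3 ^ Y.primeFactors.card * C₁ *
        ((1 + 15 * Q / (2 ^ u * Y) : ℝ) *
          ((2 : ℝ) ^ (-(3 / 4 : ℝ) * (u : ℝ)) * (2 : ℝ) ^ (2 * (u : ℝ)))) := by
        rw [e4]
        ring
    _ = _ := by
        rw [a1, b1]

/-- **Row VSM.** -/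
theorem VSM (hVRK : VRK_stmt) (hVMU : VMU_stmt) (hVEP : VEP_stmt) (hN4 : N4_stmt) (hN5 : N5_stmt) : VSM_stmt := by
  classical
  intro hLFS
  obtain ⟨y₀, B, C₀, τ, hy₀, hC₀, hτ, hτ', hLF⟩ := hLFS
  obtain ⟨CE, hCE1, hCE⟩ := hVEP y₀
  have hH : ∀ u : ℕ, ∑ p ∈ PR y₀ u, (√(2 ^ u) / lamb 1 p.1 p.2) ^ (3 / 2 : ℝ) ≤ (2 * C₀) * 4 ^ u := by
    intro u
    refine (hLF 1 le_rfl u).trans ?_
    have h1 : (2 : ℝ) ^ (-(τ * u)) ≤ 1 := by
      apply Real.rpow_le_one_of_one_le_of_nonpos (by norm_num)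
      have : 0 ≤ τ * u := by positivity
      linarith
    have h2 : C₀ * (1 + 1 ^ B * (2 : ℝ) ^ (-(τ * u))) ≤ 2 * C₀ := by
      rw [one_pow, one_mul]
      nlinarith
    exact mul_le_mul_of_nonneg_right h2 (by positivity)
  refine ⟨y₀, 240 * C₀ * CE, hy₀, ?_, ?_⟩
  · nlinarith
  intro Q T y S hQ hT hy hS hdiff
  have hT0 : (0 : ℝ) < T := by exact_mod_cast hT
  have hQr : (1 : ℝ) ≤ Q := by exact_mod_cast hQ
  have hy0 : (0 : ℝ) < y := by exact_mod_cast Nat.pos_of_ne_zero hy.ne_zero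
  have h1 := VSM_comb hVRK y₀ T S (fun x => (1 / lamb 1 x.1 x.2) ^ (3 / 2 : ℝ))
    (fun x => Real.rpow_nonneg (div_nonneg zero_le_one (VSM_lamb 1 x.1 x.2)) _)
  refine h1.trans ?_
  -- one `e`
  have h2 : ∀ e ∈ Ico 1 T, ∑ u ∈ range (Nat.log 2 (T / e) + 1), ∑ x ∈ PR y₀ u,
      (1 / lamb 1 x.1 x.2) ^ (3 / 2 : ℝ) *
      ((S.filter (fun k => rr y₀ e ∣ mk k ∧ Nat.Coprime x.1 (mk k) ∧ (x.1 : ℤ) ∣ k.im * x.2 - k.re)).card : ℝ) ≤
      16 * C₀ *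
        ((T : ℝ) ^ (5 / 4 : ℝ) * ((3 : ℝ) ^ (Nat.lcm y (rr y₀ e)).primeFactors.card *
          (e : ℝ) ^ (-(6 / 5 : ℝ))) +
        15 * Q * (T : ℝ) ^ (1 / 4 : ℝ) * ((3 : ℝ) ^ (Nat.lcm y (rr y₀ e)).primeFactors.card /
          (Nat.lcm y (rr y₀ e)) * (e : ℝ) ^ (-(1 / 5 : ℝ)))) := by
    intro e he
    rw [Finset.mem_Ico] at he
    obtain ⟨he1, he2⟩ := he
    have hrr := (WDL).2.2 y₀ e he1
    have hsq := WSM_sqf y (rr y₀ e) hy hrr.1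
    set Y := Nat.lcm y (rr y₀ e) with hYdef
    have hY0 : (0 : ℝ) < Y := by exact_mod_cast Nat.pos_of_ne_zero hsq.ne_zero
    have hfil : ∀ x : ℕ × ℕ, S.filter (fun k => rr y₀ e ∣ mk k ∧ Nat.Coprime x.1 (mk k) ∧ (x.1 : ℤ) ∣ k.im * x.2 - k.re) =
        (S.filter (fun k => rr y₀ e ∣ mk k)).filter (fun k => Nat.Coprime x.1 (mk k) ∧ (x.1 : ℤ) ∣ k.im * x.2 - k.re) := by
      intro x
      rw [Finset.filter_filter]
    simp only [hfil]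
    have hdv : ∀ k ∈ S.filter (fun k => rr y₀ e ∣ mk k), Y ∣ mk k := by
      intro k hk
      rw [Finset.mem_filter] at hk
      refine Nat.lcm_dvd ?_ hk.2
      have h5 := (hS k hk.1).2
      have h6 : y ∣ k.norm.natAbs := Int.natCast_dvd.1 h5
      exact h6.trans (Dvd.intro _ rfl)
    have hS' : ∀ k ∈ S.filter (fun k => rr y₀ e ∣ mk k), KG Q k ∧ (Y : ℤ) ∣ k.norm * k.im := by
      intro k hk
      refine ⟨(hS k (Finset.mem_filter.1 hk).1).1, ?_⟩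
      rw [Int.natCast_dvd, Int.natAbs_mul]
      exact hdv k hk
    have hY5 : (S.filter (fun k => rr y₀ e ∣ mk k)).Nonempty → ¬ 5 ∣ Y := by
      rintro ⟨k, hk⟩ h5
      have hk' := (Finset.mem_filter.1 hk).1
      have h5p : Nat.Prime 5 := by norm_num
      have h6 : 5 ∣ y * rr y₀ e := h5.trans (Nat.lcm_dvd_mul _ _)
      rcases (Nat.Prime.dvd_mul h5p).1 h6 with h7 | h7
      · have h8 : y ∣ k.norm.natAbs := Int.natCast_dvd.1 (hS k hk').2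
        have h9 := (hS k hk').1.n10
        have h10 : 5 ∣ Nat.gcd k.norm.natAbs 10 := Nat.dvd_gcd (h7.trans h8) (by norm_num)
        rw [h9] at h10
        omega
      · have := hrr.2.2 5 h5p h7
        omega
    have hYm : ∀ k ∈ S.filter (fun k => rr y₀ e ∣ mk k), ∀ p : ℕ, p.Prime → p ∣ Y → p ∣ mk k :=
      fun k hk p _ hp => hp.trans (hdv k hk)
    have h3 := Finset.sum_le_sum (s := range (Nat.log 2 (T / e) + 1))
      (fun u _ => VSM_lev hVMU y₀ (2 * C₀) u Q Y _ hQ hsq hS' hY5 hYm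
        (fun k hk k₁ hk₁ => hdiff k (Finset.mem_filter.1 hk).1 k₁ (Finset.mem_filter.1 hk₁).1) (hH u))
    refine h3.trans ?_
    have hTe : 1 ≤ T / e := Nat.div_pos he2.le he1
    have he0 : (0 : ℝ) < e := by exact_mod_cast he1
    have hU : (2 : ℝ) ^ (Nat.log 2 (T / e)) ≤ (T : ℝ) / e := by
      have h4 : 2 ^ Nat.log 2 (T / e) ≤ T / e := Nat.pow_log_le_self 2 (by omega)
      have h5 : ((2 ^ Nat.log 2 (T / e) : ℕ) : ℝ) ≤ ((T / e : ℕ) : ℝ) := Nat.cast_le.mpr h4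
      rw [Nat.cast_pow, Nat.cast_ofNat] at h5
      exact h5.trans Nat.cast_div_le
    rw [← Finset.mul_sum, Finset.sum_add_distrib, ← Finset.mul_sum]
    have g1 := WSM_geo (5 / 4) _ (by norm_num) _ hU
    have g2 := WSM_geo (1 / 4) _ (by norm_num) _ hU
    have t1 := WSM_te T e hT he1 (5 / 4) (6 / 5) (by norm_num)
    have t2 := WSM_te T e hT he1 (1 / 4) (1 / 5) (by norm_num)
    have hq : 0 ≤ (15 * Q / Y : ℝ) := by positivity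
    have r1 := g1.trans (mul_le_mul_of_nonneg_left t1 (by norm_num : (0 : ℝ) ≤ 8))
    have r2 := mul_le_mul_of_nonneg_left
      (g2.trans (mul_le_mul_of_nonneg_left t2 (by norm_num : (0 : ℝ) ≤ 8))) hq
    have hw : (0 : ℝ) ≤ 3 ^ Y.primeFactors.card * (2 * C₀) := by positivity
    refine (mul_le_mul_of_nonneg_left (add_le_add r1 r2) hw).trans (le_of_eq ?_)
    ring
  refine (Finset.sum_le_sum h2).trans ?_
  rw [← Finset.mul_sum, Finset.sum_add_distrib, ← Finset.mul_sum, ← Finset.mul_sum]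
  obtain ⟨w1, w2⟩ := hCE y T hy
  have hD0 : 0 ≤ 16 * C₀ := by positivity
  have hP1 : 0 ≤ (T : ℝ) ^ (5 / 4 : ℝ) := Real.rpow_nonneg hT0.le _
  have hP2 : 0 ≤ (T : ℝ) ^ (1 / 4 : ℝ) := Real.rpow_nonneg hT0.le _
  refine (mul_le_mul_of_nonneg_left (add_le_add (mul_le_mul_of_nonneg_left w2 hP1)
    (mul_le_mul_of_nonneg_left w1 (by positivity : 0 ≤ 15 * Q * (T : ℝ) ^ (1 / 4 : ℝ))))
    hD0).trans ?_
  have hCp : 0 ≤ CE ^ (y.primeFactors.card + 1) := by positivity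
  have hbig : 240 * C₀ * CE ^ (y.primeFactors.card + 1) ≤
      (240 * C₀ * CE) ^ (y.primeFactors.card + 1) := by
    rw [mul_pow (240 * C₀) CE]
    refine mul_le_mul_of_nonneg_right ?_ hCp
    exact le_self_pow₀ (by linarith) (by omega)
  have hR : 0 ≤ ((T : ℝ) ^ (5 / 4 : ℝ) + Q * (T : ℝ) ^ (1 / 4 : ℝ) / y) := by positivity
  calc 16 * C₀ *
        ((T : ℝ) ^ (5 / 4 : ℝ) * CE ^ (y.primeFactors.card + 1) +
          15 * Q * (T : ℝ) ^ (1 / 4 : ℝ) * (CE ^ (y.primeFactors.card + 1) / y))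
      ≤ 16 * C₀ *
        (15 * (T : ℝ) ^ (5 / 4 : ℝ) * CE ^ (y.primeFactors.card + 1) +
          15 * Q * (T : ℝ) ^ (1 / 4 : ℝ) * (CE ^ (y.primeFactors.card + 1) / y)) := by
        refine mul_le_mul_of_nonneg_left ?_ hD0
        have : 0 ≤ (T : ℝ) ^ (5 / 4 : ℝ) * CE ^ (y.primeFactors.card + 1) := mul_nonneg hP1 hCp
        nlinarith
    _ = (240 * C₀ * CE ^ (y.primeFactors.card + 1)) *
        ((T : ℝ) ^ (5 / 4 : ℝ) + Q * (T : ℝ) ^ (1 / 4 : ℝ) / y) := by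
        ring
    _ ≤ (240 * C₀ * CE) ^ (y.primeFactors.card + 1) *
        ((T : ℝ) ^ (5 / 4 : ℝ) + Q * (T : ℝ) ^ (1 / 4 : ℝ) / y) := mul_le_mul_of_nonneg_right hbig hR

end Pool.Agent.RL
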